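import Pool.Agent.R489.HB.Stm

set_option autoImplicit false

namespace Pool.Agent.R380.HB

open Pool.Agent.R489.HB

theorem CNF : S_CNF := by
  intro V G A n t hS u u' i p q hA hA' hpu hpw hps hqu hqw hqs h
  by_contra hne
  have hl : n u i = u' → t u i < t u' i := by
    intro he
    have := hS.less u i hA (by rw [he]; exact hA')
    rwa [he] at this
  have hl' : n u' i = u → t u' i < t u i := by
    intro he
    have := hS.less u' i hA' (by rw [he]; exact hA)
    rwa [he] at this
  have h1 := hS.pos u i
  have h2 := hS.pos u' i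
  have h3 := hS.half u i
  have h4 := hS.half u' i
  rcases h with ⟨hu, -, -⟩ | ⟨-, hu, hw, -⟩ | ⟨x, y, α, β, k, hx, hy, hk⟩
  · exact hne (by rw [← hpu, hu, hqu])
  · have e1 := hl (by rw [← hpw, hw, hqu])
    have e2 := hl' (by rw [← hqw, ← hu, hpu])
    linarith
  · have hk0 : (0 : ℝ) ≤ k.length := Nat.cast_nonneg _
    have hk1 : x ≠ y → (1 : ℝ) ≤ k.length := by
      intro hxy
      have : 1 ≤ k.length := by
        rcases Nat.eq_zero_or_pos k.length with h0 | h0
        · exact absurd (SimpleGraph.Walk.eq_of_length_eq_zero h0) hxy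
        · exact h0
      exact_mod_cast this
    rcases hx with ⟨hx, ha⟩ | ⟨-, hx, ha⟩ <;> rcases hy with ⟨hy, hb⟩ | ⟨-, hy, hb⟩
    · have := hk1 (by rw [hx, hy, hpu, hqu]; exact hne)
      rw [ha, hb, hps, hqs] at hk
      linarith
    · rw [ha, hb, hps, hqs] at hk
      by_cases hxy : x = y
      · have := hl' (by rw [← hqw, ← hy, ← hxy, hx, hpu])
        linarith
      · have := hk1 hxy
        linarith
    · rw [ha, hb, hps, hqs] at hk
      by_cases hxy : x = y
      · have := hl (by rw [← hpw, ← hx, hxy, hy, hqu])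
        linarith
      · have := hk1 hxy
        linarith
    · rw [ha, hb, hps, hqs] at hk
      linarith

end Pool.Agent.R380.HB
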