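import Pool.Agent.R489.HB.Stm

set_option autoImplicit false

namespace Pool.Agent.R380.HB

open Pool.Agent.R489.HB

variable {V : Type} {G : SimpleGraph V}

/-- direct or reversed -/
def near (p q : Pt G) (r : ℝ) : Prop :=
  (p.u = q.u ∧ p.w = q.w ∧ |p.s - q.s| ≤ r) ∨
  (G.Adj p.u p.w ∧ p.u = q.w ∧ p.w = q.u ∧ |p.s - (1 - q.s)| ≤ r)

lemma end_transfer {p q : Pt G} {α b : ℝ} {y : V} (h : near p q α) (hq : q.End y b) :
    ∃ a, p.End y a ∧ a ≤ b + α := by
  rcases h with ⟨hu, hw, hs⟩ | ⟨ha, hu, hw, hs⟩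
  · rw [abs_le] at hs
    rcases hq with ⟨hy, hb⟩ | ⟨hne, hy, hb⟩
    · exact ⟨p.s, Or.inl ⟨by rw [hy, hu], rfl⟩, by rw [hb]; linarith [hs.2]⟩
    · exact ⟨1 - p.s, Or.inr ⟨by rw [hu, hw]; exact hne, by rw [hy, hw], rfl⟩,
        by rw [hb]; linarith [hs.1]⟩
  · rw [abs_le] at hs
    rcases hq with ⟨hy, hb⟩ | ⟨hne, hy, hb⟩
    · exact ⟨1 - p.s, Or.inr ⟨ha.ne, by rw [hy, hw], rfl⟩, by rw [hb]; linarith [hs.1]⟩
    · exact ⟨p.s, Or.inl ⟨by rw [hy, hu], rfl⟩, by rw [hb]; linarith [hs.2]⟩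

lemma end_nonneg {p : Pt G} {x : V} {a : ℝ} (h : p.End x a) : 0 ≤ a := by
  have hp := p.h
  rcases h with ⟨-, ha⟩ | ⟨hne, -, ha⟩
  · rcases hp with ⟨-, hs⟩ | ⟨-, hs, -⟩
    · rw [ha, hs]
    · rw [ha]; exact hs
  · rcases hp with ⟨he, -⟩ | ⟨-, -, hs⟩
    · exact absurd he hne
    · rw [ha]; linarith

lemma end_two {q : Pt G} {y y' : V} {b b' : ℝ} (h : q.End y b) (h' : q.End y' b') (hne : y ≠ y') :
    G.Adj y y' ∧ b + b' = 1 := by
  have hadj : q.u ≠ q.w → G.Adj q.u q.w := by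
    intro hn
    rcases q.h with ⟨he, -⟩ | ⟨ha, -⟩
    · exact absurd he hn
    · exact ha
  rcases h with ⟨hy, hb⟩ | ⟨hn, hy, hb⟩
  · rcases h' with ⟨hy', hb'⟩ | ⟨hn', hy', hb'⟩
    · exact absurd (hy.trans hy'.symm) hne
    · rw [hy, hy', hb, hb']
      exact ⟨hadj hn', by ring⟩
  · rcases h' with ⟨hy', hb'⟩ | ⟨hn', hy', hb'⟩
    · rw [hy, hy', hb, hb']
      exact ⟨(hadj hn).symm, by ring⟩
    · exact absurd (hy.trans hy'.symm) hne

theorem TRI : S_TRI := by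
  intro V G p q r α β h1 h2
  rw [dle, ← or_assoc] at h1 h2
  rcases h1 with h1 | ⟨x, y, a, b, k, hx, hy, hk⟩
  · rcases h2 with h2 | ⟨x', y', a', b', k', hx', hy', hk'⟩
    · rcases h1 with ⟨hu, hw, hs⟩ | ⟨ha, hu, hw, hs⟩
      · rcases h2 with ⟨hu', hw', hs'⟩ | ⟨ha', hu', hw', hs'⟩
        · refine Or.inl ⟨hu.trans hu'.symm, hw.trans hw'.symm, ?_⟩
          rw [abs_le] at hs hs' ⊢
          constructor <;> linarith [hs.1, hs.2, hs'.1, hs'.2]
        · refine Or.inr (Or.inl ⟨?_, hu.trans hw'.symm, hw.trans hu'.symm, ?_⟩)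
          · rw [hu, hw, ← hu', ← hw']; exact ha'.symm
          · rw [abs_le] at hs hs' ⊢
            constructor <;> linarith [hs.1, hs.2, hs'.1, hs'.2]
      · rcases h2 with ⟨hu', hw', hs'⟩ | ⟨ha', hu', hw', hs'⟩
        · refine Or.inr (Or.inl ⟨ha, hu.trans hw'.symm, hw.trans hu'.symm, ?_⟩)
          rw [abs_le] at hs hs' ⊢
          constructor <;> linarith [hs.1, hs.2, hs'.1, hs'.2]
        · refine Or.inl ⟨hu.trans hu'.symm, hw.trans hw'.symm, ?_⟩
          rw [abs_le] at hs hs' ⊢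
          constructor <;> linarith [hs.1, hs.2, hs'.1, hs'.2]
    · obtain ⟨a, ha, hab⟩ := end_transfer h1 hy'
      refine Or.inr (Or.inr ⟨y', x', a, a', k'.reverse, ha, hx', ?_⟩)
      rw [SimpleGraph.Walk.length_reverse]
      linarith
  · rcases h2 with h2 | ⟨x', y', a', b', k', hx', hy', hk'⟩
    · obtain ⟨a', ha', hab⟩ := end_transfer h2 hy
      refine Or.inr (Or.inr ⟨x, y, a, a', k, hx, ha', ?_⟩)
      linarith
    · by_cases hyy : y = y'
      · subst hyy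
        refine Or.inr (Or.inr ⟨x, x', a, a', k.append k'.reverse, hx, hx', ?_⟩)
        rw [SimpleGraph.Walk.length_append, SimpleGraph.Walk.length_reverse]
        push_cast
        have := end_nonneg hy
        have := end_nonneg hy'
        linarith
      · obtain ⟨hadj, hbb⟩ := end_two hy hy' hyy
        refine Or.inr (Or.inr ⟨x, x', a, a',
          k.append (SimpleGraph.Walk.cons hadj k'.reverse), hx, hx', ?_⟩)
        rw [SimpleGraph.Walk.length_append, SimpleGraph.Walk.length_cons,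
          SimpleGraph.Walk.length_reverse]
        push_cast
        linarith

end Pool.Agent.R380.HB
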